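import Pool.Agent.helper81.CW.Spec2

/-! # Project cw, module G4: independence of radius and direction for the Gaussian measure -/

open MeasureTheory Set Filter
open scoped ENNReal Pointwise

namespace Pool.Agent.helper81.CW

/-- Gaussian functions are integrable -/
theorem G4_gauss (n : ℕ) (b : ℝ) (hb : 0 < b) :
    Integrable (fun x : E n => Real.exp (-(b * ‖x‖ ^ 2))) := by
  have h := GaussianFourier.integrable_cexp_neg_mul_sq_norm_add (V := E n) (b := (b : ℂ))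
    (by simpa using hb) 0 0
  refine (h.norm).congr (Filter.Eventually.of_forall fun x => ?_)
  simp only [Complex.norm_exp, zero_mul, add_zero]
  congr 1
  rw [show (-(b : ℂ) * (‖x‖ : ℂ) ^ 2) = ((-(b * ‖x‖ ^ 2) : ℝ) : ℂ) by push_cast; ring]
  exact Complex.ofReal_re _

/-- a quadratic factor is harmless -/
theorem G4_gauss2 (n : ℕ) (b : ℝ) (hb : 0 < b) :
    Integrable (fun x : E n => ‖x‖ ^ 2 * Real.exp (-(b * ‖x‖ ^ 2))) := by
  refine Integrable.mono' ((G4_gauss n (b / 2) (by positivity)).const_mul (2 / b))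
    (by fun_prop) (Filter.Eventually.of_forall fun x => ?_)
  have h0 : 0 ≤ ‖x‖ ^ 2 * Real.exp (-(b * ‖x‖ ^ 2)) := by positivity
  rw [Real.norm_of_nonneg h0]
  have h1 : b / 2 * ‖x‖ ^ 2 ≤ Real.exp (b / 2 * ‖x‖ ^ 2) :=
    (by linarith : b / 2 * ‖x‖ ^ 2 ≤ b / 2 * ‖x‖ ^ 2 + 1).trans (Real.add_one_le_exp _)
  have h2 : ‖x‖ ^ 2 ≤ 2 / b * Real.exp (b / 2 * ‖x‖ ^ 2) := by
    rw [div_mul_eq_mul_div, le_div_iff₀ hb]
    nlinarith
  calc ‖x‖ ^ 2 * Real.exp (-(b * ‖x‖ ^ 2))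
      ≤ (2 / b * Real.exp (b / 2 * ‖x‖ ^ 2)) * Real.exp (-(b * ‖x‖ ^ 2)) :=
        mul_le_mul_of_nonneg_right h2 (Real.exp_pos _).le
    _ = 2 / b * Real.exp (-(b / 2 * ‖x‖ ^ 2)) := by
        rw [mul_assoc, ← Real.exp_add]
        congr 2
        ring

theorem G4_main (n : ℕ) (ψ : E n → ℝ) (B : ℝ) (hm : Measurable ψ) (hB : ∀ x, |ψ x| ≤ B)
    (hh : ∀ (x : E n) (t : ℝ), 0 < t → ψ (t • x) = ψ x) :
    ∫ x : E n, ψ x * (‖x‖ ^ 2 * Real.exp (-(‖x‖ ^ 2 / 2))) =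
      n * ∫ x : E n, ψ x * Real.exp (-(‖x‖ ^ 2 / 2)) := by
  have hB0 : 0 ≤ B := (abs_nonneg (ψ 0)).trans (hB 0)
  set F : ℝ → E n → ℝ := fun s x => ψ x * Real.exp (-(s ^ 2 * ‖x‖ ^ 2 / 2)) with hF
  set F' : ℝ → E n → ℝ := fun s x => ψ x * (-(s * ‖x‖ ^ 2) * Real.exp (-(s ^ 2 * ‖x‖ ^ 2 / 2)))
    with hF'
  have hder := hasDerivAt_integral_of_dominated_loc_of_deriv_le (μ := (volume : Measure (E n)))
    (F := F) (F' := F') (x₀ := (1 : ℝ)) (s := Set.Ioo (1 / 2 : ℝ) 2)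
    (bound := fun x => B * (2 * (‖x‖ ^ 2 * Real.exp (-(1 / 8 * ‖x‖ ^ 2)))))
    (Ioo_mem_nhds (by norm_num) (by norm_num))
    (Filter.Eventually.of_forall fun s => by
      simp only [hF]
      exact (hm.mul (by fun_prop)).aestronglyMeasurable)
    (by
      simp only [hF]
      refine Integrable.mono' ((G4_gauss n (1 / 2) (by norm_num)).const_mul B)
        (hm.mul (by fun_prop)).aestronglyMeasurable (Filter.Eventually.of_forall fun x => ?_)
      rw [norm_mul, Real.norm_eq_abs, Real.norm_of_nonneg (Real.exp_pos _).le]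
      refine mul_le_mul (hB x) (le_of_eq ?_) (Real.exp_pos _).le hB0
      congr 1
      ring)
    (by
      simp only [hF']
      exact (hm.mul (by fun_prop)).aestronglyMeasurable)
    (Filter.Eventually.of_forall fun x s hs => by
      simp only [hF']
      rw [norm_mul, norm_mul, Real.norm_eq_abs, Real.norm_eq_abs, abs_neg,
        Real.norm_of_nonneg (Real.exp_pos _).le, abs_of_nonneg
          (mul_nonneg (by linarith [hs.1] : (0 : ℝ) ≤ s) (sq_nonneg ‖x‖))]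
      refine mul_le_mul (hB x) ?_ (mul_nonneg (mul_nonneg (by linarith [hs.1]) (sq_nonneg _))
        (Real.exp_pos _).le) hB0
      have h1 : s * ‖x‖ ^ 2 ≤ 2 * ‖x‖ ^ 2 :=
        mul_le_mul_of_nonneg_right hs.2.le (sq_nonneg _)
      have h2 : Real.exp (-(s ^ 2 * ‖x‖ ^ 2 / 2)) ≤ Real.exp (-(1 / 8 * ‖x‖ ^ 2)) := by
        apply Real.exp_le_exp.mpr
        have h3 : (1 / 4 : ℝ) ≤ s ^ 2 := by nlinarith [hs.1]
        nlinarith [sq_nonneg ‖x‖]
      calc s * ‖x‖ ^ 2 * Real.exp (-(s ^ 2 * ‖x‖ ^ 2 / 2))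
          ≤ (2 * ‖x‖ ^ 2) * Real.exp (-(1 / 8 * ‖x‖ ^ 2)) :=
            mul_le_mul h1 h2 (Real.exp_pos _).le (by positivity)
        _ = 2 * (‖x‖ ^ 2 * Real.exp (-(1 / 8 * ‖x‖ ^ 2))) := by ring)
    (((G4_gauss2 n (1 / 8) (by norm_num)).const_mul 2).const_mul B)
    (Filter.Eventually.of_forall fun x s _ => by
      simp only [hF, hF']
      have h1 : HasDerivAt (fun s : ℝ => -(s ^ 2 * ‖x‖ ^ 2 / 2))
          (-(((2 : ℕ) : ℝ) * s ^ (2 - 1) * ‖x‖ ^ 2 / 2)) s :=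
        (((hasDerivAt_pow 2 s).mul_const (‖x‖ ^ 2)).div_const 2).neg
      have h3 := (h1.exp).const_mul (ψ x)
      refine h3.congr_deriv ?_
      have e2 : ((2 : ℕ) : ℝ) * s ^ (2 - 1) = 2 * s := by norm_num
      rw [e2]
      ring)
  have hscale : ∀ s : ℝ, 0 < s → ∫ x, F s x = s ^ (-(n : ℤ)) * ∫ x, F 1 x := by
    intro s hs
    have h1 := Measure.integral_comp_smul (volume : Measure (E n)) (F 1) s
    have h2 : (fun x : E n => F 1 (s • x)) = F s := by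
      funext x
      simp only [hF, hh x s hs, norm_smul, Real.norm_of_nonneg hs.le]
      congr 2
      ring
    rw [h2] at h1
    rw [h1, finrank_euclideanSpace, Fintype.card_fin, abs_of_pos (by positivity), zpow_neg,
      zpow_natCast, smul_eq_mul]
  have hder2 : HasDerivAt (fun s : ℝ => ∫ x, F s x) (-(n : ℝ) * ∫ x, F 1 x) 1 := by
    have h1 : HasDerivAt (fun s : ℝ => s ^ (-(n : ℤ)) * ∫ x, F 1 x)
        (-(n : ℝ) * ∫ x, F 1 x) 1 := by
      have h2 := (hasDerivAt_zpow (-(n : ℤ)) (1 : ℝ) (Or.inl one_ne_zero)).mul_const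
        (∫ x, F 1 x)
      simpa using h2
    refine h1.congr_of_eventuallyEq ?_
    filter_upwards [Ioi_mem_nhds (show (0 : ℝ) < 1 by norm_num)] with s hs
    exact hscale s hs
  have huniq := hder.2.unique hder2
  have e1 : ∫ x, F' 1 x = - ∫ x : E n, ψ x * (‖x‖ ^ 2 * Real.exp (-(‖x‖ ^ 2 / 2))) := by
    rw [← integral_neg]
    congr 1
    funext x
    simp only [hF', one_pow, one_mul]
    ring
  have e2 : ∫ x, F 1 x = ∫ x : E n, ψ x * Real.exp (-(‖x‖ ^ 2 / 2)) := by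
    congr 1
    funext x
    simp only [hF, one_pow, one_mul]
  rw [e1, e2] at huniq
  linarith

theorem G4_gm (n : ℕ) (f : E n → ℝ) :
    ∫ x, f x ∂(gm n) =
      (Real.sqrt (2 * Real.pi) ^ n)⁻¹ * ∫ x, f x * Real.exp (-(‖x‖ ^ 2 / 2)) := by
  unfold gm
  rw [integral_withDensity_eq_integral_toReal_smul (by fun_prop)
    (Filter.Eventually.of_forall fun x => ENNReal.ofReal_lt_top), ← integral_const_mul]
  congr 1
  funext x
  rw [ENNReal.toReal_ofReal (by positivity), smul_eq_mul]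
  have : -‖x‖ ^ 2 / 2 = -(‖x‖ ^ 2 / 2) := by ring
  rw [this]
  field_simp

theorem G4 : G4_stmt := by
  intro n ψ B hm hB hh
  rw [G4_gm, G4_gm]
  have e : (fun x : E n => ‖x‖ ^ 2 * ψ x * Real.exp (-(‖x‖ ^ 2 / 2))) =
      fun x => ψ x * (‖x‖ ^ 2 * Real.exp (-(‖x‖ ^ 2 / 2))) := by
    funext x; ring
  rw [e, G4_main n ψ B hm hB hh]
  ring

end Pool.Agent.helper81.CW
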